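import Pool.Agent.helper45.TF.Defs

/-!
# Data of the flexible tight surface (project TF, MP_5b8da6_gt)

`P v` : integer coordinates of the vertex `v` (the exact rational coordinates multiplied by the
common denominator 140922251668235762725000), `faceL` : the 66 triangles, coherently oriented, `S0` : the surface,
`p0` : the positions of the vertices.
-/

namespace Pool.Agent.helper92.TF

open Set Topology Pool.Agent.helper45.TF

/-- the table of the integer coordinates -/
def coordL : List (ℤ × ℤ × ℤ) := [
  (-267752278169647949177500, -1056916887511768220437500, 422766755004707288175000),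
  (-611602572240143210226500, -648242357673884508535000, 2395678278360007966325000),
  (-98645576167765033907500, -467861875538542732247000, 411492974871248427157000),
  (-234165706292657928088300, -933147655634008335601080, 393423624187929374599560),
  (-61229342753031720767500, -347854809248052502896500, 450303146393589451963000),
  (-156469552578965634508500, -701527475966278244483200, 354272426930314849106150),
  (-155734773543485026790900, -699764006281124785960960, 368968007639927003458150),
  (-387967812436937432700, -270938156946188371219580, 302269597421379929341000),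
  (-74579867086688529465900, -379896067648828843772660, 183292659720453277995000),
  (-23359895952390242235900, -353944615607451044909460, 289830199679793715433400),
  (99554088456950864673300, -137042225467899087294868, 109159723531367590579134),
  (-84171317806687121637900, -313388387609941797883548, 128000229433339546194184),
  (104174736605740477505556, -130984971683913203697932, 100614274049637629630440),
  (27878153875883783280900, -72561250368450324184340, -48708450874248996867400),
  (-82589554748722841227044, -303824727951926684569612, 121909264063430046047390),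
  (310179860922974005266324, 140884524855021930907169, -253546872563182877451507),
  (-52850629273786459358404, -91728630214031469481942, -17154750360007573017530),
  (120569165536833626695628, -95734003283687785038022, 20809807871463385693646),
  (-55880049965059597421620, 58659060280468786064570, -111527103754956532394290),
  (325471232426688573033284, 127504574789271684111079, -242078343935396951626287),
  (485005226816402741467144, 227385840501238003819374, -361995675979112121933392),
  (113563963005783191848924, 103572085897698153946634, -176275044073802347124282),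
  (634108303645409645807384, 288655178150625200474238, -456521280560191154008792),
  (-811243407618423703291238, 2078289725264454810986254, -1214984190375499419691881),
  (4086745298378837119025000, -845533510009414576350000, -4368589801715308644475000),
  (-845533510009414576350000, -8314412848425910000775000, 9864557616776503390750000),
  (-2536600530028243729050000, 3523056291705894068125000, -5073201060056487458100000),
  (-1409222516682357627250000, 5777812318397666271725000, 563689006672943050900000),
  (112737801334588610180000, 98645576167765033907500, -169106702001882915270000)]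

/-- integer coordinates of the vertices -/
def P (v : Fin 29) (i : Fin 3) : ℤ :=
  let c := coordL.getD v.1 (0, 0, 0)
  match i with
  | 0 => c.1
  | 1 => c.2.1
  | 2 => c.2.2

/-- the positions of the vertices -/
noncomputable def p0 (v : Fin 29) : E3 := WithLp.toLp 2 (fun i => (P v i : ℝ))

@[simp] theorem p0_apply (v : Fin 29) (i : Fin 3) : p0 v i = (P v i : ℝ) := rfl

/-- the list of the 66 coherently oriented triangles -/
def faceL : List (Fin 29 × Fin 29 × Fin 29) := [
  (0, 1, 3), (0, 27, 1), (0, 5, 2), (0, 2, 25), (0, 3, 5), (0, 26, 22),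
  (0, 22, 27), (0, 25, 24), (0, 24, 26), (1, 2, 4), (1, 28, 2), (1, 4, 3),
  (1, 23, 26), (1, 27, 23), (1, 26, 25), (1, 25, 28), (2, 5, 4), (2, 23, 25),
  (2, 26, 23), (2, 28, 26), (3, 4, 6), (3, 8, 5), (3, 6, 8), (4, 5, 7),
  (4, 7, 6), (5, 8, 7), (6, 7, 9), (6, 11, 8), (6, 9, 11), (7, 8, 10),
  (7, 10, 9), (8, 11, 10), (9, 10, 12), (9, 14, 11), (9, 12, 14), (10, 11, 13),
  (10, 13, 12), (11, 14, 13), (12, 13, 15), (12, 17, 14), (12, 15, 17), (13, 14, 16),
  (13, 16, 15), (14, 17, 16), (15, 16, 18), (15, 20, 17), (15, 18, 20), (16, 17, 19),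
  (16, 19, 18), (17, 20, 19), (18, 19, 21), (18, 23, 20), (18, 21, 23), (19, 20, 22),
  (19, 22, 21), (20, 23, 22), (21, 22, 28), (21, 25, 23), (21, 28, 25), (22, 23, 24),
  (22, 24, 25), (22, 25, 27), (22, 26, 28), (23, 27, 24), (24, 27, 26), (25, 26, 27)]

/-- the triangle as a set of vertices -/
def triSet (t : Fin 29 × Fin 29 × Fin 29) : Finset (Fin 29) := {t.1, t.2.1, t.2.2}

theorem faceL_nodup : (faceL.map triSet).Nodup := by
  decide +kernel

/-- the set of the 66 triangles -/
def faceSet : Finset (Finset (Fin 29)) := ⟨↑(faceL.map triSet), faceL_nodup⟩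

theorem mem_faceSet {s : Finset (Fin 29)} : s ∈ faceSet ↔ ∃ t ∈ faceL, triSet t = s :=
  List.mem_map

/-- the cyclic lists of the neighbours of the vertices (the first neighbour is repeated at the
end) -/
def linkL : List (List (Fin 29)) := [
  [1, 3, 5, 2, 25, 24, 26, 22, 27, 1],
  [0, 3, 4, 2, 28, 25, 26, 23, 27, 0],
  [0, 5, 4, 1, 28, 26, 23, 25, 0],
  [0, 1, 4, 6, 8, 5, 0],
  [1, 2, 5, 7, 6, 3, 1],
  [0, 2, 4, 7, 8, 3, 0],
  [3, 4, 7, 9, 11, 8, 3],
  [4, 5, 8, 10, 9, 6, 4],
  [3, 5, 7, 10, 11, 6, 3],
  [6, 7, 10, 12, 14, 11, 6],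
  [7, 8, 11, 13, 12, 9, 7],
  [6, 8, 10, 13, 14, 9, 6],
  [9, 10, 13, 15, 17, 14, 9],
  [10, 11, 14, 16, 15, 12, 10],
  [9, 11, 13, 16, 17, 12, 9],
  [12, 13, 16, 18, 20, 17, 12],
  [13, 14, 17, 19, 18, 15, 13],
  [12, 14, 16, 19, 20, 15, 12],
  [15, 16, 19, 21, 23, 20, 15],
  [16, 17, 20, 22, 21, 18, 16],
  [15, 17, 19, 22, 23, 18, 15],
  [18, 19, 22, 28, 25, 23, 18],
  [0, 26, 28, 21, 19, 20, 23, 24, 25, 27, 0],
  [1, 26, 2, 25, 21, 18, 20, 22, 24, 27, 1],
  [0, 25, 22, 23, 27, 26, 0],
  [0, 2, 23, 21, 28, 1, 26, 27, 22, 24, 0],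
  [0, 22, 28, 2, 23, 1, 25, 27, 24, 0],
  [0, 1, 23, 24, 26, 25, 22, 0],
  [1, 2, 26, 22, 21, 25, 1]]

/-- the `i`-th triangle around `v` -/
def fan (v : Fin 29) (i : ℕ) : Finset (Fin 29) :=
  {v, (linkL.getD v.1 []).getD i 0, (linkL.getD v.1 []).getD (i + 1) 0}

/-- the number of triangles around `v` -/
def deg (v : Fin 29) : ℕ := (linkL.getD v.1 []).length - 1

theorem fan_cover : ∀ v : Fin 29, ∀ t ∈ faceL, v ∈ triSet t →
    ∃ i ∈ List.range (deg v), fan v i = triSet t := by
  decide +kernel

theorem fan_mem : ∀ v : Fin 29, ∀ i ∈ List.range (deg v), fan v i ∈ faceSet ∧ v ∈ fan v i := by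
  decide +kernel

theorem fan_inter : ∀ v : Fin 29, ∀ i ∈ List.range (deg v - 1),
    (fan v i ∩ fan v (i + 1)).card = 2 := by
  decide +kernel

theorem card_eq' : ∀ t ∈ faceL, (triSet t).card = 3 := by
  have h : (faceL.all fun t => (triSet t).card == 3) = true := by decide +kernel
  intro t ht
  simpa using List.all_eq_true.1 h t ht

theorem cover' : ∀ v : Fin 29, ∃ t ∈ faceL, v ∈ triSet t := by
  decide +kernel

theorem edge_two' : ∀ u v : Fin 29, u ≠ v → (∃ t ∈ faceL, u ∈ triSet t ∧ v ∈ triSet t) →
    (faceSet.filter (fun s => u ∈ s ∧ v ∈ s)).card = 2 := by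
  decide +kernel

theorem parent' : ∀ v : Fin 29, v ≠ 0 → ∃ w < v, ∃ t ∈ faceL, v ∈ triSet t ∧ w ∈ triSet t := by
  decide +kernel

theorem card66 : faceSet.card = 66 := rfl

/-! ### the surface -/

theorem fan_rel (v : Fin 29) (i : ℕ) (hi : i < deg v) :
    Relation.ReflTransGen
      (fun a b : Finset (Fin 29) => a ∈ faceSet ∧ b ∈ faceSet ∧ v ∈ a ∧ v ∈ b ∧ (a ∩ b).card = 2)
      (fan v 0) (fan v i) := by
  induction i with
  | zero => exact Relation.ReflTransGen.refl
  | succ i ih =>
    have h1 := fan_mem v i (List.mem_range.2 (by omega))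
    have h2 := fan_mem v (i + 1) (List.mem_range.2 hi)
    exact (ih (by omega)).tail ⟨h1.1, h2.1, h1.2, h2.2, fan_inter v i (List.mem_range.2 (by omega))⟩

theorem rtg_symm {α : Type} {r : α → α → Prop} (h : ∀ a b, r a b → r b a) {a b : α}
    (hab : Relation.ReflTransGen r a b) : Relation.ReflTransGen r b a := by
  induction hab with
  | refl => exact Relation.ReflTransGen.refl
  | tail _ h1 ih => exact (Relation.ReflTransGen.single (h _ _ h1)).trans ih

theorem rel_symm (v : Fin 29) (a b : Finset (Fin 29))
    (h : a ∈ faceSet ∧ b ∈ faceSet ∧ v ∈ a ∧ v ∈ b ∧ (a ∩ b).card = 2) :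
    b ∈ faceSet ∧ a ∈ faceSet ∧ v ∈ b ∧ v ∈ a ∧ (b ∩ a).card = 2 := by
  obtain ⟨h1, h2, h3, h4, h5⟩ := h
  exact ⟨h2, h1, h4, h3, by rw [Finset.inter_comm]; exact h5⟩

theorem conn0 (n : ℕ) : ∀ v : Fin 29, v.1 ≤ n → Relation.ReflTransGen
    (fun a b : Fin 29 => ∃ s ∈ faceSet, a ∈ s ∧ b ∈ s) 0 v := by
  induction n with
  | zero =>
    intro v hv
    have : v = 0 := Fin.ext (by simpa using hv)
    subst this
    exact Relation.ReflTransGen.refl
  | succ n ih =>
    intro v hv
    by_cases h0 : v = 0
    · subst h0
      exact Relation.ReflTransGen.refl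
    · obtain ⟨w, hw, t, ht, hvt, hwt⟩ := parent' v h0
      have hlt : w.1 < v.1 := hw
      exact (ih w (by omega)).tail ⟨triSet t, mem_faceSet.2 ⟨t, ht, rfl⟩, hwt, hvt⟩

theorem conn_symm (a b : Fin 29) (h : ∃ s ∈ faceSet, a ∈ s ∧ b ∈ s) :
    ∃ s ∈ faceSet, b ∈ s ∧ a ∈ s := by
  obtain ⟨s, hs, ha, hb⟩ := h
  exact ⟨s, hs, hb, ha⟩

/-- the closed surface with 29 vertices and 66 triangles -/
def S0 : ClosedSurface (Fin 29) where
  faces := faceSet
  card_eq := by
    intro s hs
    obtain ⟨t, ht, rfl⟩ := mem_faceSet.1 hs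
    exact card_eq' t ht
  cover := by
    intro v
    obtain ⟨t, ht, hv⟩ := cover' v
    exact ⟨triSet t, mem_faceSet.2 ⟨t, ht, rfl⟩, hv⟩
  edge_two := by
    intro u v huv h
    obtain ⟨s, hs, hu, hv⟩ := h
    obtain ⟨t, ht, rfl⟩ := mem_faceSet.1 hs
    exact edge_two' u v huv ⟨t, ht, hu, hv⟩
  link_conn := by
    intro v s hs t ht hvs hvt
    obtain ⟨s', hs', rfl⟩ := mem_faceSet.1 hs
    obtain ⟨t', ht', rfl⟩ := mem_faceSet.1 ht
    obtain ⟨i, hi, hi'⟩ := fan_cover v s' hs' hvs
    obtain ⟨j, hj, hj'⟩ := fan_cover v t' ht' hvt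
    rw [← hi', ← hj']
    exact (rtg_symm (rel_symm v) (fan_rel v i (List.mem_range.1 hi))).trans
      (fan_rel v j (List.mem_range.1 hj))
  conn := by
    intro u v
    exact (rtg_symm conn_symm (conn0 28 u (by omega))).trans
      (conn0 28 v (by omega))

@[simp] theorem S0_faces : S0.faces = faceSet := rfl

theorem S0_card : S0.faces.card = 66 := card66

end Pool.Agent.helper92.TF
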