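import Pool.Agent.helper92.TF.IM
import Pool.Agent.helper92.TF.Data
import Pool.Agent.helper43.TF.SG4

/-!
# Certificates for the flexible tight surface (project TF, MP_5b8da6_gt)

* `p0_open`: every small perturbation of `p0` is a polyhedral immersion of `S0`,
* `p0_tight`: `polyMap p0` is tight,
* `S0_orientable`.
-/

namespace Pool.Agent.helper92.TF

open Set Topology Pool.Agent.helper45.TF Pool.Agent.helper92.TF.IM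

/-- integer difference vector -/
def dZ (w v : Fin 29) (i : Fin 3) : ℤ := P w i - P v i

/-- integer determinant -/
def detZ (A n B : Fin 3 → ℤ) : ℤ :=
  (A 1 * n 2 - A 2 * n 1) * B 0 + (A 2 * n 0 - A 0 * n 2) * B 1 + (A 0 * n 1 - A 1 * n 0) * B 2

/-- integer scalar product -/
def dotZ (n B : Fin 3 → ℤ) : ℤ := n 0 * B 0 + n 1 * B 1 + n 2 * B 2

/-- a certificate: indices of the two triangles, common vertices, vector -/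
structure Entry where
  i : ℕ
  j : ℕ
  v : Fin 29
  a : Fin 29
  x : ℤ
  y : ℤ
  z : ℤ

/-- the `i`-th triangle -/
def tri (i : ℕ) : Finset (Fin 29) := triSet (faceL.getD i (0, 0, 0))

/-- validity of a certificate for two triangles with one common vertex -/
def ok1 (s t : Finset (Fin 29)) (v : Fin 29) (n : Fin 3 → ℤ) : Prop :=
  (∀ w ∈ s, w ∈ t → w = v) ∧ (∀ w ∈ s, w ∉ t → 0 < dotZ n (dZ w v)) ∧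
    (∀ w ∈ t, w ∉ s → dotZ n (dZ w v) < 0)

/-- validity of a certificate for two triangles with a common edge -/
def ok2 (s t : Finset (Fin 29)) (v a : Fin 29) (n : Fin 3 → ℤ) : Prop :=
  (∀ w ∈ s, w ∈ t → w = v ∨ w = a) ∧ (∀ w ∈ s, w ∉ t → 0 < detZ (dZ a v) n (dZ w v)) ∧
    (∀ w ∈ t, w ∉ s → detZ (dZ a v) n (dZ w v) < 0)

instance (s t : Finset (Fin 29)) (v : Fin 29) (n : Fin 3 → ℤ) : Decidable (ok1 s t v n) := by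
  unfold ok1; infer_instance

instance (s t : Finset (Fin 29)) (v a : Fin 29) (n : Fin 3 → ℤ) : Decidable (ok2 s t v a n) := by
  unfold ok2; infer_instance

/-- validity of an entry -/
def Entry.ok (e : Entry) : Bool :=
  if e.v = e.a then decide (ok1 (tri e.i) (tri e.j) e.v ![e.x, e.y, e.z])
  else decide (ok2 (tri e.i) (tri e.j) e.v e.a ![e.x, e.y, e.z])

/-- the list of the certificates -/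
def certL : List Entry := [
  ⟨0, 1, 0, 1, 0, -1, 0⟩, ⟨0, 2, 0, 0, -7, 2, 0⟩, ⟨0, 3, 0, 0, -7, 2, 0⟩, ⟨0, 4, 0, 3, -1, -1, -1⟩,
  ⟨0, 5, 0, 0, -1, 1, 2⟩, ⟨0, 6, 0, 0, 7, 0, 8⟩, ⟨0, 7, 0, 0, -1, 1, 0⟩, ⟨0, 8, 0, 0, 0, 1, 1⟩,
  ⟨0, 9, 1, 1, 0, -1, 0⟩, ⟨0, 10, 1, 1, 0, -1, 0⟩, ⟨0, 11, 1, 3, 0, -1, 0⟩, ⟨0, 12, 1, 1, 0, -1, 0⟩,
  ⟨0, 13, 1, 1, 0, -1, 0⟩, ⟨0, 14, 1, 1, 1, 0, 0⟩, ⟨0, 15, 1, 1, -4, 0, -1⟩, ⟨0, 20, 3, 3, -1, -1, 0⟩,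
  ⟨0, 21, 3, 3, -1, -1, 0⟩, ⟨0, 22, 3, 3, -1, -1, 0⟩, ⟨1, 2, 0, 0, -1, 0, 0⟩, ⟨1, 3, 0, 0, -4, 1, 0⟩,
  ⟨1, 4, 0, 0, -1, 0, 0⟩, ⟨1, 5, 0, 0, -1, 0, 1⟩, ⟨1, 6, 0, 27, -1, -1, -1⟩, ⟨1, 7, 0, 0, -1, 1, 0⟩,
  ⟨1, 8, 0, 0, -1, 0, 1⟩, ⟨1, 9, 1, 1, -4, 0, -1⟩, ⟨1, 10, 1, 1, -4, 0, -1⟩, ⟨1, 11, 1, 1, -10, 1, -2⟩,
  ⟨1, 12, 1, 1, 10, 2, 1⟩, ⟨1, 13, 1, 27, 0, -1, 2⟩, ⟨1, 14, 1, 1, 3, 1, 0⟩, ⟨1, 15, 1, 1, -4, 0, -1⟩,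
  ⟨1, 61, 27, 27, -7, -2, -3⟩, ⟨1, 63, 27, 27, -2, -1, 2⟩, ⟨1, 64, 27, 27, -1, -1, 1⟩, ⟨1, 65, 27, 27, 6, 0, -1⟩,
  ⟨2, 3, 0, 2, 0, -1, -1⟩, ⟨2, 4, 0, 5, -1, -1, 0⟩, ⟨2, 5, 0, 0, -1, 1, 2⟩, ⟨2, 6, 0, 0, 2, 0, 3⟩,
  ⟨2, 7, 0, 0, -1, 1, 0⟩, ⟨2, 8, 0, 0, 0, 1, 1⟩, ⟨2, 9, 2, 2, -1, -1, -1⟩, ⟨2, 10, 2, 2, -1, -1, -1⟩,
  ⟨2, 16, 2, 5, 0, -1, 1⟩, ⟨2, 17, 2, 2, -1, -1, -1⟩, ⟨2, 18, 2, 2, -1, -1, 0⟩, ⟨2, 19, 2, 2, -1, -1, 0⟩,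
  ⟨2, 21, 5, 5, 4, -1, 2⟩, ⟨2, 23, 5, 5, -4, 1, 0⟩, ⟨2, 25, 5, 5, 0, 0, 1⟩, ⟨3, 4, 0, 0, -2, 1, 2⟩,
  ⟨3, 5, 0, 0, -2, 1, 2⟩, ⟨3, 6, 0, 0, 1, 0, 2⟩, ⟨3, 7, 0, 25, 1, -1, 1⟩, ⟨3, 8, 0, 0, 0, 1, 1⟩,
  ⟨3, 9, 2, 2, 1, -1, 0⟩, ⟨3, 10, 2, 2, 1, -1, 0⟩, ⟨3, 14, 25, 25, 2, -5, -4⟩, ⟨3, 15, 25, 25, -2, -1, -1⟩,
  ⟨3, 16, 2, 2, -5, 1, 1⟩, ⟨3, 17, 2, 25, -1, -1, -1⟩, ⟨3, 18, 2, 2, -1, -1, 0⟩, ⟨3, 19, 2, 2, -1, -1, 0⟩,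
  ⟨3, 57, 25, 25, 2, -5, -4⟩, ⟨3, 58, 25, 25, -2, -1, -1⟩, ⟨3, 60, 25, 25, -2, -1, -1⟩, ⟨3, 61, 25, 25, -2, -1, -1⟩,
  ⟨3, 65, 25, 25, 1, 0, 0⟩, ⟨4, 5, 0, 0, -1, 1, 2⟩, ⟨4, 6, 0, 0, 7, 0, 8⟩, ⟨4, 7, 0, 0, -1, 1, 0⟩,
  ⟨4, 8, 0, 0, 0, 1, 1⟩, ⟨4, 11, 3, 3, 3, -1, 0⟩, ⟨4, 16, 5, 5, -1, -1, -1⟩, ⟨4, 20, 3, 3, 5, -2, -2⟩,
  ⟨4, 21, 3, 5, -1, -1, 0⟩, ⟨4, 22, 3, 3, 11, -4, -2⟩, ⟨4, 23, 5, 5, -1, -1, -1⟩, ⟨4, 25, 5, 5, -1, -1, -1⟩,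
  ⟨5, 6, 0, 22, 1, -1, 0⟩, ⟨5, 7, 0, 0, -1, 1, 0⟩, ⟨5, 8, 0, 26, -1, -1, 1⟩, ⟨5, 12, 26, 26, 1, -1, -1⟩,
  ⟨5, 14, 26, 26, 1, -1, -1⟩, ⟨5, 18, 26, 26, 1, -2, -2⟩, ⟨5, 19, 26, 26, 1, -2, -2⟩, ⟨5, 53, 22, 22, 0, -1, -1⟩,
  ⟨5, 54, 22, 22, 0, -1, -1⟩, ⟨5, 55, 22, 22, 0, -1, -1⟩, ⟨5, 56, 22, 22, 0, -1, -1⟩, ⟨5, 59, 22, 22, -3, -3, -1⟩,
  ⟨5, 60, 22, 22, -2, 0, -1⟩, ⟨5, 61, 22, 22, -1, -1, -1⟩, ⟨5, 62, 22, 26, 0, 1, -1⟩, ⟨5, 64, 26, 26, -1, -1, 0⟩,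
  ⟨5, 65, 26, 26, 1, -1, -1⟩, ⟨6, 7, 0, 0, -1, 1, 0⟩, ⟨6, 8, 0, 0, 0, 1, 1⟩, ⟨6, 13, 27, 27, 6, 1, 0⟩,
  ⟨6, 53, 22, 22, 3, 1, 5⟩, ⟨6, 54, 22, 22, 3, 1, 5⟩, ⟨6, 55, 22, 22, 3, 1, 5⟩, ⟨6, 56, 22, 22, 2, 1, 4⟩,
  ⟨6, 59, 22, 22, 0, 0, 1⟩, ⟨6, 60, 22, 22, -2, 0, -1⟩, ⟨6, 61, 22, 27, 1, -1, -1⟩, ⟨6, 62, 22, 22, 2, 1, 4⟩,
  ⟨6, 63, 27, 27, -1, -1, 2⟩, ⟨6, 64, 27, 27, -1, -1, 1⟩, ⟨6, 65, 27, 27, 6, 0, -1⟩, ⟨7, 8, 0, 24, -1, 1, 0⟩,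
  ⟨7, 14, 25, 25, 2, -4, -3⟩, ⟨7, 15, 25, 25, 2, -4, -3⟩, ⟨7, 17, 25, 25, 2, -4, -3⟩, ⟨7, 57, 25, 25, 2, -4, -3⟩,
  ⟨7, 58, 25, 25, 2, -4, -3⟩, ⟨7, 59, 24, 24, 0, -1, 0⟩, ⟨7, 60, 24, 25, -1, 1, 0⟩, ⟨7, 61, 25, 25, -4, -3, -3⟩,
  ⟨7, 63, 24, 24, 0, -1, 0⟩, ⟨7, 64, 24, 24, 0, -1, 0⟩, ⟨7, 65, 25, 25, 1, 0, 0⟩, ⟨8, 12, 26, 26, 1, -1, -1⟩,
  ⟨8, 14, 26, 26, 1, -1, -1⟩, ⟨8, 18, 26, 26, 1, -2, -2⟩, ⟨8, 19, 26, 26, 1, -2, -2⟩, ⟨8, 59, 24, 24, -3, -3, -2⟩,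
  ⟨8, 60, 24, 24, -4, -3, -3⟩, ⟨8, 62, 26, 26, -1, -2, -1⟩, ⟨8, 63, 24, 24, -3, -3, -2⟩, ⟨8, 64, 24, 26, -1, 1, -1⟩,
  ⟨8, 65, 26, 26, 1, -1, -1⟩, ⟨9, 10, 1, 2, 0, 1, 1⟩, ⟨9, 11, 1, 4, -1, -3, 0⟩, ⟨9, 12, 1, 1, 1, -1, 0⟩,
  ⟨9, 13, 1, 1, 1, -1, 0⟩, ⟨9, 14, 1, 1, 1, 0, 0⟩, ⟨9, 15, 1, 1, -9, -2, -3⟩, ⟨9, 16, 2, 4, 0, 0, -1⟩,
  ⟨9, 17, 2, 2, 3, 1, 1⟩, ⟨9, 18, 2, 2, -1, 0, 1⟩, ⟨9, 19, 2, 2, -1, 0, 1⟩, ⟨9, 20, 4, 4, -6, 2, -1⟩,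
  ⟨9, 23, 4, 4, -6, 2, -1⟩, ⟨9, 24, 4, 4, -6, 2, -1⟩, ⟨10, 11, 1, 1, -13, 4, -3⟩, ⟨10, 12, 1, 1, 1, 0, 0⟩,
  ⟨10, 13, 1, 1, 1, 0, 0⟩, ⟨10, 14, 1, 1, 1, 0, 0⟩, ⟨10, 15, 1, 28, 0, -1, 0⟩, ⟨10, 16, 2, 2, -6, 2, -1⟩,
  ⟨10, 17, 2, 2, 3, 1, 1⟩, ⟨10, 18, 2, 2, 2, 1, 1⟩, ⟨10, 19, 2, 28, -1, -1, 1⟩, ⟨10, 56, 28, 28, -1, -1, 0⟩,
  ⟨10, 58, 28, 28, -3, 3, 2⟩, ⟨10, 62, 28, 28, -1, -1, 0⟩, ⟨11, 12, 1, 1, 1, -1, 0⟩, ⟨11, 13, 1, 1, 1, -1, 0⟩,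
  ⟨11, 14, 1, 1, 1, 0, 0⟩, ⟨11, 15, 1, 1, -9, -2, -3⟩, ⟨11, 16, 4, 4, -1, 0, 1⟩, ⟨11, 20, 3, 4, -1, -1, -1⟩,
  ⟨11, 21, 3, 3, 0, 0, 1⟩, ⟨11, 22, 3, 3, 0, 0, 1⟩, ⟨11, 23, 4, 4, -1, 0, 1⟩, ⟨11, 24, 4, 4, -1, 0, 2⟩,
  ⟨12, 13, 1, 23, 1, -1, -1⟩, ⟨12, 14, 1, 26, -1, -1, 1⟩, ⟨12, 15, 1, 1, -2, 1, 0⟩, ⟨12, 17, 23, 23, -7, 6, 5⟩,
  ⟨12, 18, 23, 26, -1, -1, -1⟩, ⟨12, 19, 26, 26, -1, 1, 1⟩, ⟨12, 51, 23, 23, -2, 1, 1⟩, ⟨12, 52, 23, 23, -2, 1, 1⟩,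
  ⟨12, 55, 23, 23, -2, -1, 0⟩, ⟨12, 57, 23, 23, -7, 6, 5⟩, ⟨12, 59, 23, 23, -2, -2, -1⟩, ⟨12, 62, 26, 26, -1, 1, 1⟩,
  ⟨12, 63, 23, 23, -1, -1, 0⟩, ⟨12, 64, 26, 26, -2, -2, 1⟩, ⟨12, 65, 26, 26, 4, 0, -1⟩, ⟨13, 14, 1, 1, 1, 2, 1⟩,
  ⟨13, 15, 1, 1, -2, 1, 0⟩, ⟨13, 17, 23, 23, 1, 4, 3⟩, ⟨13, 18, 23, 23, -1, 1, 1⟩, ⟨13, 51, 23, 23, -1, 1, 1⟩,
  ⟨13, 52, 23, 23, -1, 1, 1⟩, ⟨13, 55, 23, 23, -1, 0, 1⟩, ⟨13, 57, 23, 23, 1, 4, 3⟩, ⟨13, 59, 23, 23, -1, 0, 1⟩,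
  ⟨13, 61, 27, 27, -7, -2, -3⟩, ⟨13, 63, 23, 27, -1, -1, -1⟩, ⟨13, 64, 27, 27, -1, -1, 1⟩, ⟨13, 65, 27, 27, 6, 0, -1⟩,
  ⟨14, 15, 1, 25, 0, 0, 1⟩, ⟨14, 17, 25, 25, -21, 16, 15⟩, ⟨14, 18, 26, 26, -2, -1, 0⟩, ⟨14, 19, 26, 26, -1, 1, 1⟩,
  ⟨14, 57, 25, 25, -21, 16, 15⟩, ⟨14, 58, 25, 25, -4, 4, 3⟩, ⟨14, 60, 25, 25, -4, 3, 2⟩, ⟨14, 61, 25, 25, -12, -4, -5⟩,
  ⟨14, 62, 26, 26, -1, 1, 1⟩, ⟨14, 64, 26, 26, -1, -1, 0⟩, ⟨14, 65, 25, 26, 0, 1, -1⟩, ⟨15, 17, 25, 25, 2, 1, 1⟩,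
  ⟨15, 19, 28, 28, 1, 1, 1⟩, ⟨15, 56, 28, 28, -1, -1, 0⟩, ⟨15, 57, 25, 25, 594, 345, 346⟩, ⟨15, 58, 25, 28, -1, -1, -1⟩,
  ⟨15, 60, 25, 25, -4, 3, 2⟩, ⟨15, 61, 25, 25, -12, -4, -5⟩, ⟨15, 62, 28, 28, -1, -1, 0⟩, ⟨15, 65, 25, 25, 1, 0, 0⟩,
  ⟨16, 17, 2, 2, 5, -1, -1⟩, ⟨16, 18, 2, 2, -1, 0, 1⟩, ⟨16, 19, 2, 2, -1, 0, 1⟩, ⟨16, 20, 4, 4, 1, 0, -1⟩,
  ⟨16, 21, 5, 5, 1, 0, 1⟩, ⟨16, 23, 4, 5, 0, -1, 1⟩, ⟨16, 24, 4, 4, -13, 4, -2⟩, ⟨16, 25, 5, 5, 0, 0, 1⟩,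
  ⟨17, 18, 2, 23, -1, -1, -1⟩, ⟨17, 19, 2, 2, 0, 1, 1⟩, ⟨17, 51, 23, 23, -2, 0, 1⟩, ⟨17, 52, 23, 23, -2, 0, 1⟩,
  ⟨17, 55, 23, 23, -1, 0, 1⟩, ⟨17, 57, 23, 25, -3, 1, 3⟩, ⟨17, 58, 25, 25, -2, -1, -1⟩, ⟨17, 59, 23, 23, -1, 0, 1⟩,
  ⟨17, 60, 25, 25, -2, -1, -1⟩, ⟨17, 61, 25, 25, -2, -1, -1⟩, ⟨17, 63, 23, 23, -1, -1, 0⟩, ⟨17, 65, 25, 25, 1, 0, 0⟩,
  ⟨18, 19, 2, 26, -1, -1, -1⟩, ⟨18, 51, 23, 23, -3, -1, 0⟩, ⟨18, 52, 23, 23, -3, -1, 0⟩, ⟨18, 55, 23, 23, -1, -1, -1⟩,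
  ⟨18, 57, 23, 23, -5, -4, -4⟩, ⟨18, 59, 23, 23, -2, -2, -1⟩, ⟨18, 62, 26, 26, -2, 0, 1⟩, ⟨18, 63, 23, 23, -1, -1, 0⟩,
  ⟨18, 64, 26, 26, -2, -2, 1⟩, ⟨18, 65, 26, 26, 3, -2, -2⟩, ⟨19, 56, 28, 28, -1, 0, 0⟩, ⟨19, 58, 28, 28, -3, 3, 2⟩,
  ⟨19, 62, 26, 28, -1, 0, 1⟩, ⟨19, 64, 26, 26, -1, -1, 0⟩, ⟨19, 65, 26, 26, 1, -1, -1⟩, ⟨20, 21, 3, 3, -2, 1, 2⟩,
  ⟨20, 22, 3, 6, -1, -1, -1⟩, ⟨20, 23, 4, 4, -1, 0, 1⟩, ⟨20, 24, 4, 6, 0, -1, -1⟩, ⟨20, 26, 6, 6, 0, 0, 1⟩,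
  ⟨20, 27, 6, 6, 0, 0, 1⟩, ⟨20, 28, 6, 6, 0, 0, 1⟩, ⟨21, 22, 3, 8, 0, -1, 2⟩, ⟨21, 23, 5, 5, -1, 0, -1⟩,
  ⟨21, 25, 5, 8, 0, -1, -1⟩, ⟨21, 27, 8, 8, 3, -3, -4⟩, ⟨21, 29, 8, 8, -1, -1, -1⟩, ⟨21, 31, 8, 8, -1, -1, -1⟩,
  ⟨22, 24, 6, 6, -1, 0, -1⟩, ⟨22, 25, 8, 8, -17, 6, 3⟩, ⟨22, 26, 6, 6, -1, 0, -1⟩, ⟨22, 27, 6, 8, 0, -1, 1⟩,
  ⟨22, 28, 6, 6, 2, -1, -1⟩, ⟨22, 29, 8, 8, -1, -1, -1⟩, ⟨22, 31, 8, 8, -1, -1, -1⟩, ⟨23, 24, 4, 7, -1, -3, 0⟩,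
  ⟨23, 25, 5, 7, -1, -1, -1⟩, ⟨23, 26, 7, 7, -9, 3, -2⟩, ⟨23, 29, 7, 7, -1, 0, 1⟩, ⟨23, 30, 7, 7, 0, 0, 1⟩,
  ⟨24, 25, 7, 7, -2, 1, 2⟩, ⟨24, 26, 6, 7, -1, -1, -1⟩, ⟨24, 27, 6, 6, 1, 0, 1⟩, ⟨24, 28, 6, 6, 1, 0, 2⟩,
  ⟨24, 29, 7, 7, -1, 0, 1⟩, ⟨24, 30, 7, 7, 0, 0, 1⟩, ⟨25, 26, 7, 7, -9, 3, -2⟩, ⟨25, 27, 8, 8, 13, -5, -3⟩,
  ⟨25, 29, 7, 8, 0, -1, -1⟩, ⟨25, 30, 7, 7, -3, 1, 0⟩, ⟨25, 31, 8, 8, -1, 0, 1⟩, ⟨26, 27, 6, 6, 1, 0, 1⟩,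
  ⟨26, 28, 6, 9, -1, -1, -1⟩, ⟨26, 29, 7, 7, -1, 0, 1⟩, ⟨26, 30, 7, 9, 0, -1, -1⟩, ⟨26, 32, 9, 9, 0, 0, 1⟩,
  ⟨26, 33, 9, 9, 0, 0, 1⟩, ⟨26, 34, 9, 9, 0, 0, 1⟩, ⟨27, 28, 6, 11, 1, 0, 1⟩, ⟨27, 29, 8, 8, -1, 0, 0⟩,
  ⟨27, 31, 8, 11, -1, -1, -1⟩, ⟨27, 33, 11, 11, -1, -1, -1⟩, ⟨27, 35, 11, 11, -1, -1, -1⟩, ⟨27, 37, 11, 11, -1, -1, -1⟩,
  ⟨28, 30, 9, 9, -1, -1, -1⟩, ⟨28, 31, 11, 11, -4, 2, 3⟩, ⟨28, 32, 9, 9, -1, -1, -1⟩, ⟨28, 33, 9, 11, 0, -1, -1⟩,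
  ⟨28, 34, 9, 9, -4, -2, 1⟩, ⟨28, 35, 11, 11, -1, -1, 1⟩, ⟨28, 37, 11, 11, -1, -1, 1⟩, ⟨29, 30, 7, 10, -1, -2, -2⟩,
  ⟨29, 31, 8, 10, -1, -1, 1⟩, ⟨29, 32, 10, 10, -3, 2, 0⟩, ⟨29, 35, 10, 10, 1, -1, 0⟩, ⟨29, 36, 10, 10, -1, -1, 1⟩,
  ⟨30, 31, 10, 10, 1, 0, 1⟩, ⟨30, 32, 9, 10, -1, -1, -1⟩, ⟨30, 33, 9, 9, 0, 1, 1⟩, ⟨30, 34, 9, 9, 0, 5, 6⟩,
  ⟨30, 35, 10, 10, 1, -1, 0⟩, ⟨30, 36, 10, 10, -1, -1, 1⟩, ⟨31, 32, 10, 10, -3, 2, 0⟩, ⟨31, 33, 11, 11, 1, -1, -1⟩,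
  ⟨31, 35, 10, 11, -1, -1, -1⟩, ⟨31, 36, 10, 10, -1, -1, 1⟩, ⟨31, 37, 11, 11, 1, -1, 0⟩, ⟨32, 33, 9, 9, 0, 1, 1⟩,
  ⟨32, 34, 9, 12, -1, -1, 1⟩, ⟨32, 35, 10, 10, 2, -2, -1⟩, ⟨32, 36, 10, 12, 0, 0, 1⟩, ⟨32, 38, 12, 12, -1, -1, 1⟩,
  ⟨32, 39, 12, 12, 1, -1, 0⟩, ⟨32, 40, 12, 12, -1, -1, 0⟩, ⟨33, 34, 9, 14, 0, -1, -1⟩, ⟨33, 35, 11, 11, -1, 1, 1⟩,
  ⟨33, 37, 11, 14, -1, -1, -1⟩, ⟨33, 39, 14, 14, -1, -1, 1⟩, ⟨33, 41, 14, 14, -1, -1, 1⟩, ⟨33, 43, 14, 14, -1, -1, 1⟩,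
  ⟨34, 36, 12, 12, 1, -2, -1⟩, ⟨34, 37, 14, 14, -2, 3, 3⟩, ⟨34, 38, 12, 12, -1, -1, 1⟩, ⟨34, 39, 12, 14, -1, -1, -1⟩,
  ⟨34, 40, 12, 12, -1, -1, 0⟩, ⟨34, 41, 14, 14, 1, -1, 0⟩, ⟨34, 43, 14, 14, 1, -1, 0⟩, ⟨35, 36, 10, 13, -1, -1, -1⟩,
  ⟨35, 37, 11, 13, -1, -1, 1⟩, ⟨35, 38, 13, 13, -2, 0, 1⟩, ⟨35, 41, 13, 13, 1, 1, 2⟩, ⟨35, 42, 13, 13, 1, -1, 1⟩,
  ⟨36, 37, 13, 13, 0, 1, 1⟩, ⟨36, 38, 12, 13, -1, -1, -1⟩, ⟨36, 39, 12, 12, -1, 2, 1⟩, ⟨36, 40, 12, 12, -1, -1, 0⟩,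
  ⟨36, 41, 13, 13, 1, 0, 0⟩, ⟨36, 42, 13, 13, 1, -1, 1⟩, ⟨37, 38, 13, 13, -1, -1, -1⟩, ⟨37, 39, 14, 14, 0, -2, -3⟩,
  ⟨37, 41, 13, 14, -1, -1, -1⟩, ⟨37, 42, 13, 13, 0, -1, -1⟩, ⟨37, 43, 14, 14, 0, -2, -3⟩, ⟨38, 39, 12, 12, -2, 3, 1⟩,
  ⟨38, 40, 12, 15, -1, -1, 1⟩, ⟨38, 41, 13, 13, 1, 0, 0⟩, ⟨38, 42, 13, 15, -1, 0, 1⟩, ⟨38, 44, 15, 15, 2, -2, 1⟩,
  ⟨38, 45, 15, 15, -1, 2, 1⟩, ⟨38, 46, 15, 15, 1, -1, 1⟩, ⟨39, 40, 12, 17, -1, -1, -1⟩, ⟨39, 41, 14, 14, 1, 0, 1⟩,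
  ⟨39, 43, 14, 17, -1, -1, 1⟩, ⟨39, 45, 17, 17, -1, -1, 0⟩, ⟨39, 47, 17, 17, 0, -1, 0⟩, ⟨39, 49, 17, 17, -1, -1, 0⟩,
  ⟨40, 42, 15, 15, 1, -1, 0⟩, ⟨40, 43, 17, 17, 1, 1, 1⟩, ⟨40, 44, 15, 15, 1, -1, 0⟩, ⟨40, 45, 15, 17, 1, 0, 0⟩,
  ⟨40, 46, 15, 15, 1, -1, 1⟩, ⟨40, 47, 17, 17, 0, 7, 6⟩, ⟨40, 49, 17, 17, -1, 2, 1⟩, ⟨41, 42, 13, 16, -1, -1, -1⟩,
  ⟨41, 43, 14, 16, 1, 0, 0⟩, ⟨41, 44, 16, 16, 1, -1, 1⟩, ⟨41, 47, 16, 16, 0, -3, -2⟩, ⟨41, 48, 16, 16, 1, -1, 1⟩,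
  ⟨42, 43, 16, 16, 0, 0, -1⟩, ⟨42, 44, 15, 16, -1, -1, -1⟩, ⟨42, 45, 15, 15, -1, 0, -1⟩, ⟨42, 46, 15, 15, 1, -1, 1⟩,
  ⟨42, 47, 16, 16, -2, -6, -9⟩, ⟨42, 48, 16, 16, -2, -6, -9⟩, ⟨43, 44, 16, 16, 0, -1, 0⟩, ⟨43, 45, 17, 17, -1, -1, -1⟩,
  ⟨43, 47, 16, 17, -1, 0, 0⟩, ⟨43, 48, 16, 16, 0, -1, 0⟩, ⟨43, 49, 17, 17, -1, -1, -1⟩, ⟨44, 45, 15, 15, -1, 0, -1⟩,
  ⟨44, 46, 15, 18, -1, -1, -1⟩, ⟨44, 47, 16, 16, -3, 2, -3⟩, ⟨44, 48, 16, 18, 3, 2, -2⟩, ⟨44, 50, 18, 18, -1, -4, -5⟩,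
  ⟨44, 51, 18, 18, 1, -2, 1⟩, ⟨44, 52, 18, 18, 0, -3, -2⟩, ⟨45, 46, 15, 20, -1, 0, 1⟩, ⟨45, 47, 17, 17, 1, 12, 11⟩,
  ⟨45, 49, 17, 20, -2, 1, -1⟩, ⟨45, 51, 20, 20, 1, -1, 1⟩, ⟨45, 53, 20, 20, 1, 13, 12⟩, ⟨45, 55, 20, 20, -1, -1, 0⟩,
  ⟨46, 48, 18, 18, -1, 1, -2⟩, ⟨46, 49, 20, 20, -2, 1, -2⟩, ⟨46, 50, 18, 18, -1, -4, -5⟩, ⟨46, 51, 18, 20, -1, 0, 1⟩,
  ⟨46, 52, 18, 18, -1, -4, -5⟩, ⟨46, 53, 20, 20, -2, 1, -2⟩, ⟨46, 55, 20, 20, -1, -1, 0⟩, ⟨47, 48, 16, 19, -1, 0, 1⟩,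
  ⟨47, 49, 17, 19, -1, -1, -1⟩, ⟨47, 50, 19, 19, 1, -1, 1⟩, ⟨47, 53, 19, 19, -1, -1, -1⟩, ⟨47, 54, 19, 19, 1, -1, 1⟩,
  ⟨48, 49, 19, 19, -1, 0, -1⟩, ⟨48, 50, 18, 19, -1, -1, 1⟩, ⟨48, 51, 18, 18, 1, -2, 1⟩, ⟨48, 52, 18, 18, 1, -1, 2⟩,
  ⟨48, 53, 19, 19, -1, -1, -1⟩, ⟨48, 54, 19, 19, 0, -2, -1⟩, ⟨49, 50, 19, 19, 1, -1, 0⟩, ⟨49, 51, 20, 20, 1, -1, 1⟩,
  ⟨49, 53, 19, 20, -1, 1, -1⟩, ⟨49, 54, 19, 19, 2, 8, 9⟩, ⟨49, 55, 20, 20, -1, -1, 0⟩, ⟨50, 51, 18, 18, 1, -2, 1⟩,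
  ⟨50, 52, 18, 21, -1, -1, 1⟩, ⟨50, 53, 19, 19, -1, -1, -1⟩, ⟨50, 54, 19, 21, -1, -1, -1⟩, ⟨50, 56, 21, 21, -1, -7, -6⟩,
  ⟨50, 57, 21, 21, -1, -4, -5⟩, ⟨50, 58, 21, 21, -1, -2, -4⟩, ⟨51, 52, 18, 23, 3, 2, -2⟩, ⟨51, 53, 20, 20, -2, 1, -2⟩,
  ⟨51, 55, 20, 23, -1, -1, -1⟩, ⟨51, 57, 23, 23, -6, -17, -27⟩, ⟨51, 59, 23, 23, -2, -2, -1⟩, ⟨51, 63, 23, 23, -1, -1, 0⟩,
  ⟨52, 54, 21, 21, -1, 0, -1⟩, ⟨52, 55, 23, 23, -1, -1, -1⟩, ⟨52, 56, 21, 21, -1, 0, -1⟩, ⟨52, 57, 21, 23, 0, 1, -1⟩,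
  ⟨52, 58, 21, 21, -1, 0, -1⟩, ⟨52, 59, 23, 23, -1, 0, 1⟩, ⟨52, 63, 23, 23, -1, -1, 0⟩, ⟨53, 54, 19, 22, 1, 1, -1⟩,
  ⟨53, 55, 20, 22, -1, 0, 1⟩, ⟨53, 56, 22, 22, 1, -1, 1⟩, ⟨53, 59, 22, 22, -1, -1, 0⟩, ⟨53, 60, 22, 22, -1, 1, 0⟩,
  ⟨53, 61, 22, 22, -1, -1, -1⟩, ⟨53, 62, 22, 22, 1, -1, 1⟩, ⟨54, 55, 22, 22, -1, -5, -5⟩, ⟨54, 56, 21, 22, 0, -1, 1⟩,
  ⟨54, 57, 21, 21, 0, -1, -1⟩, ⟨54, 58, 21, 21, 0, -1, -1⟩, ⟨54, 59, 22, 22, -1, -1, 0⟩, ⟨54, 60, 22, 22, -1, 1, 0⟩,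
  ⟨54, 61, 22, 22, -1, -1, -1⟩, ⟨54, 62, 22, 22, -13, -825, -569⟩, ⟨55, 56, 22, 22, 1, 5, 5⟩, ⟨55, 57, 23, 23, 1, 0, -1⟩,
  ⟨55, 59, 22, 23, -1, -1, -1⟩, ⟨55, 60, 22, 22, -1, 1, 0⟩, ⟨55, 61, 22, 22, -1, -1, -1⟩, ⟨55, 62, 22, 22, 1, 5, 5⟩,
  ⟨55, 63, 23, 23, -1, -1, 0⟩, ⟨56, 57, 21, 21, 2, 1, 1⟩, ⟨56, 58, 21, 28, 0, -1, 1⟩, ⟨56, 59, 22, 22, -1, -1, 0⟩,
  ⟨56, 60, 22, 22, -1, 1, -1⟩, ⟨56, 61, 22, 22, -1, -1, -1⟩, ⟨56, 62, 22, 28, -7, 7, -10⟩, ⟨57, 58, 21, 25, -1, 1, 1⟩,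
  ⟨57, 59, 23, 23, -1, 0, 1⟩, ⟨57, 60, 25, 25, -3, -2, -2⟩, ⟨57, 61, 25, 25, -3, -2, -2⟩, ⟨57, 63, 23, 23, -1, -1, 0⟩,
  ⟨57, 65, 25, 25, 1, 0, 0⟩, ⟨58, 60, 25, 25, -3, -2, -2⟩, ⟨58, 61, 25, 25, -3, -2, -2⟩, ⟨58, 62, 28, 28, -3, -190, -131⟩,
  ⟨58, 65, 25, 25, 1, 0, 0⟩, ⟨59, 60, 22, 24, -1, -1, -1⟩, ⟨59, 61, 22, 22, -1, -1, -1⟩, ⟨59, 62, 22, 22, 3, 3, 1⟩,
  ⟨59, 63, 23, 24, -1, 1, 1⟩, ⟨59, 64, 24, 24, 0, -1, 1⟩, ⟨60, 61, 22, 25, -1, -1, -1⟩, ⟨60, 62, 22, 22, 1, -1, 0⟩,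
  ⟨60, 63, 24, 24, 1, 0, 1⟩, ⟨60, 64, 24, 24, 0, -1, 1⟩, ⟨60, 65, 25, 25, 1, 0, 0⟩, ⟨61, 62, 22, 22, 1, 1, 1⟩,
  ⟨61, 63, 27, 27, -1, -1, 2⟩, ⟨61, 64, 27, 27, -1, -1, 1⟩, ⟨61, 65, 25, 27, 0, -1, 1⟩, ⟨62, 64, 26, 26, -1, -1, 0⟩,
  ⟨62, 65, 26, 26, 1, -1, -1⟩, ⟨63, 64, 24, 27, -1, -1, -1⟩, ⟨63, 65, 27, 27, 4, 1, -1⟩, ⟨64, 65, 26, 27, 0, -1, -1⟩]

theorem certL_ok : (certL.all Entry.ok) = true := by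
  decide +kernel

/-- the pairs of triangles with a common vertex are listed -/
def coverOk : Bool :=
  (List.range 66).all fun j => (List.range j).all fun i =>
    (!decide (∃ v ∈ tri i, v ∈ tri j)) || certL.any fun e => e.i == i && e.j == j

theorem coverOk_true : coverOk = true := by
  decide +kernel

theorem cert_pair {i j : ℕ} (hij : i < j) (hj : j < 66) (h : ∃ v ∈ tri i, v ∈ tri j) :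
    ∃ e ∈ certL, e.i = i ∧ e.j = j := by
  have h1 := coverOk_true
  unfold coverOk at h1
  have h2 := List.all_eq_true.1 (List.all_eq_true.1 h1 j (List.mem_range.2 hj)) i
    (List.mem_range.2 hij)
  rw [Bool.or_eq_true] at h2
  rcases h2 with h2 | h2
  · rw [Bool.not_eq_true', decide_eq_false_iff_not] at h2
    exact absurd h h2
  · obtain ⟨e, he, h3⟩ := List.any_eq_true.1 h2
    rw [Bool.and_eq_true, beq_iff_eq, beq_iff_eq] at h3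
    exact ⟨e, he, h3⟩

theorem dv_cast (w v : Fin 29) (i : Fin 3) : dv p0 w v i = (dZ w v i : ℝ) := by
  simp [dv, dZ]

theorem ok1_cert {s t : Finset (Fin 29)} {v : Fin 29} {n : Fin 3 → ℤ} (h : ok1 s t v n) :
    Cert1 p0 s t := by
  obtain ⟨h1, h2, h3⟩ := h
  refine ⟨v, h1, fun i => (n i : ℝ), ?_, ?_⟩
  · intro w hw hw'
    have := h2 w hw hw'
    simp only [dv_cast]
    unfold dotZ at this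
    exact_mod_cast this
  · intro w hw hw'
    have := h3 w hw hw'
    simp only [dv_cast]
    unfold dotZ at this
    exact_mod_cast this

theorem ok2_cert {s t : Finset (Fin 29)} {v a : Fin 29} {n : Fin 3 → ℤ} (h : ok2 s t v a n) :
    Cert2 p0 s t := by
  obtain ⟨h1, h2, h3⟩ := h
  refine ⟨v, a, h1, fun i => (n i : ℝ), ?_, ?_⟩
  · intro w hw hw'
    have := h2 w hw hw'
    simp only [det3, dv_cast]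
    unfold detZ at this
    exact_mod_cast this
  · intro w hw hw'
    have := h3 w hw hw'
    simp only [det3, dv_cast]
    unfold detZ at this
    exact_mod_cast this

theorem cert_of_lt {i j : ℕ} (hij : i < j) (hj : j < 66) (h : ∃ v ∈ tri i, v ∈ tri j) :
    Cert1 p0 (tri i) (tri j) ∨ Cert2 p0 (tri i) (tri j) := by
  obtain ⟨e, he, rfl, rfl⟩ := cert_pair hij hj h
  have := List.all_eq_true.1 certL_ok e he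
  unfold Entry.ok at this
  split_ifs at this
  · exact Or.inl (ok1_cert (of_decide_eq_true this))
  · exact Or.inr (ok2_cert (of_decide_eq_true this))

theorem faceL_length : faceL.length = 66 := rfl

theorem exists_tri {s : Finset (Fin 29)} (hs : s ∈ faceSet) : ∃ i < 66, tri i = s := by
  obtain ⟨t, ht, rfl⟩ := mem_faceSet.1 hs
  obtain ⟨i, hi, rfl⟩ := List.mem_iff_getElem.1 ht
  refine ⟨i, by rw [← faceL_length]; exact hi, ?_⟩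
  unfold tri
  rw [List.getD_eq_getElem?_getD, List.getElem?_eq_getElem hi]
  rfl

/-- all small perturbations of `p0` are polyhedral immersions -/
theorem p0_open : ∀ᶠ q in 𝓝 p0, IsPolyhedralImmersion S0 q := by
  refine im_open S0 p0 (fun s hs t ht hst hv => ?_)
  obtain ⟨i, hi, rfl⟩ := exists_tri hs
  obtain ⟨j, hj, rfl⟩ := exists_tri ht
  have hij : i ≠ j := fun h => hst (by rw [h])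
  rcases lt_or_gt_of_ne hij with h | h
  · rcases cert_of_lt h hj hv with h | h
    · exact Or.inl h
    · exact Or.inr (Or.inl h)
  · obtain ⟨v, hv1, hv2⟩ := hv
    rcases cert_of_lt h hi ⟨v, hv2, hv1⟩ with h | h
    · exact Or.inr (Or.inr (Or.inl h))
    · exact Or.inr (Or.inr (Or.inr h))

theorem p0_immersion : IsPolyhedralImmersion S0 p0 := p0_open.self_of_nhds

/-! ### saddle certificates -/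

/-- a saddle certificate: vertex, four neighbours, positive weights -/
structure SEntry where
  v : Fin 29
  w : Fin 4 → Fin 29
  l : Fin 4 → ℤ

/-- validity of a saddle certificate -/
def SEntry.ok (e : SEntry) : Bool :=
  decide ((∀ k, ∃ t ∈ faceL, e.v ∈ triSet t ∧ e.w k ∈ triSet t) ∧ (∀ k, 0 < e.l k) ∧
    (∀ i : Fin 3, e.l 0 * dZ (e.w 0) e.v i + e.l 1 * dZ (e.w 1) e.v i + e.l 2 * dZ (e.w 2) e.v i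
      + e.l 3 * dZ (e.w 3) e.v i = 0) ∧
    detZ (dZ (e.w 0) e.v) (dZ (e.w 1) e.v) (dZ (e.w 2) e.v) ≠ 0)

/-- the saddle certificates -/
def sadL : List SEntry := [
  ⟨0, ![1, 24, 25, 26], ![854720, 555106, 564213, 792173]⟩,
  ⟨1, ![0, 25, 27, 28], ![877523, 584243, 690864, 532875]⟩,
  ⟨2, ![0, 1, 25, 28], ![1152095, 345035, 43727, 1913463]⟩,
  ⟨3, ![0, 1, 4, 8], ![71441670758100283, 345755910780750, 1906892067416817, 13787005591616250]⟩,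
  ⟨4, ![1, 2, 3, 7], ![1970300611321880, 5112438666245131, 1111001292102725, 24125382336372800]⟩,
  ⟨5, ![0, 4, 7, 8], ![5954770099975247, 928931046249043, 2562383380833565, 2127869942656905]⟩,
  ⟨6, ![3, 4, 7, 8], ![119095401999504940, 16070920053048753, 47368524081015794, 5710379744116289]⟩,
  ⟨7, ![4, 8, 9, 10], ![2920110019125244725738996525, 295287611337677911996995409, 202832647916062381050458266, 2043493218916347464454798400]⟩,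
  ⟨8, ![5, 7, 10, 11], ![3184390701986140682767537594, 371807129388347526919364623, 1793133885596577331411527734, 8242947042022826208317010666]⟩,
  ⟨9, ![6, 7, 10, 11], ![9553172105958422048302612782, 24706514335947731417840056850, 5747344213960145009708444450, 154333850530762825425464425]⟩,
  ⟨10, ![7, 11, 12, 13], ![84232540520371387888521748525656828336, 1244859106695417186129788822570385227, 1887297674795240363899059191499661948875, 1024792465809299772756753592442625914]⟩,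
  ⟨11, ![6, 8, 9, 14], ![52721799788861974636302051385398720594, 19060708556340072731284909571281370621, 167985542234899170126657362068137060, 2263245990636055621255803432268262168750]⟩,
  ⟨12, ![9, 10, 13, 15], ![1733387736907466299833479478200912193863221793469, 325270577833927977590345834644603908624754659460480, 512113564284180606215619142167770972066071776531, 8558526794900347156722928473194168604136385634560]⟩,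
  ⟨13, ![12, 14, 15, 16], ![866758681590415910201574221048129320531586561, 23007172309157375630737926178053341506493909380, 32670749848546992500378456468948757023418435860, 83583442088752855453603430823838521944688632934]⟩,
  ⟨14, ![9, 11, 12, 16], ![35115009373120937239993755096193983735934480570, 79207631465323531388039551101257614985681974004835, 103037199303037771447195417705526085670120486051, 3495895839059056754434439153280043947881829175872]⟩,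
  ⟨15, ![13, 17, 18, 20], ![8635325361493888882160229772369232928134569804345050336, 8586124177145428231936732279622190218314974447280822865, 18839050250600097382045707110029298111769012052422337999, 62702623651245265506833934828739562080622856306926774208]⟩,
  ⟨16, ![13, 14, 17, 18], ![31006253119862972193312948690649240995749179340235514752, 86645148723620632711497361216276899575492065443793846848, 2491384375566656132156240275937119172540003449404713585, 118312663532775018812934725222060022932120091650596738063]⟩,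
  ⟨17, ![12, 14, 15, 16], ![83583442088752855453603430823838521944688632934, 23007172309157375630737926178053341506493909380, 32670749848546992500378456468948757023418435860, 866758681590415910201574221048129320531586561]⟩,
  ⟨18, ![15, 16, 19, 23], ![2509609025813030815212084924818593807583555014597775341381088, 287572138975051520564499563197301953297451730190511010145612625, 35145966443560860327350767802196923395239796731531041689982032, 20113238833487170155710203579927648212796515083132749927955000]⟩,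
  ⟨19, ![16, 17, 18, 20], ![53970783509336805513501436077307705800841061277156564600, 107912428193625021949044397615560561197533575249268288807, 54706644293846412294296000732757284211389837765076477377, 397358920736439162799520378167046132242761022917473728800]⟩,
  ⟨20, ![17, 18, 22, 23], ![11688065781350029769747823312276627979188817714491368249938, 6386884932438114298432620968958531501660055703188288753250, 57880440261826945972373909133663230860749888348815496186537, 706675421008614392423823627927498115591445327958554463696]⟩,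
  ⟨21, ![18, 22, 23, 28], ![1170939297686257693525128328982105862796800472880021690818053, 394327990244357398800184337601921939832125648589176087196772, 2736308441140134213666480037518992324180516465374794130576, 5236253470044813336847024843899929334676590336092132975972224]⟩,
  ⟨22, ![24, 25, 26, 27], ![472591147977054657137128936, 227951505999598877348459400, 185518678179855146402541243, 345599147423871885328370421]⟩,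
  ⟨23, ![24, 25, 26, 27], ![56938272422597365689218696, 40760730291848786899440825, 122068087953531371051021848, 111833807680586474957068631]⟩,
  ⟨28, ![1, 2, 22, 26], ![1263488357357490258653226160, 7539472390512045945052095680, 9790105371457638689393181250, 979624745243406775326892897]⟩]

theorem sadL_ok : (sadL.all SEntry.ok) = true := by
  decide +kernel

/-- the vertices of the convex hull -/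
def H0 : Set (Fin 29) := {v | 24 ≤ v.1 ∧ v.1 ≤ 27}

theorem sad_cover : ∀ v : Fin 29, ¬ (24 ≤ v.1 ∧ v.1 ≤ 27) → ∃ e ∈ sadL, e.v = v := by
  have h : ∀ v : Fin 29, (decide (24 ≤ v.1 ∧ v.1 ≤ 27) || sadL.any fun e => e.v == v) = true := by
    decide +kernel
  intro v hv
  have h1 := h v
  rw [Bool.or_eq_true, decide_eq_true_eq] at h1
  rcases h1 with h1 | h1
  · exact absurd h1 hv
  · obtain ⟨e, he, h2⟩ := List.any_eq_true.1 h1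
    exact ⟨e, he, by simpa using h2⟩

theorem hull_adj : ∀ v w : Fin 29, (24 ≤ v.1 ∧ v.1 ≤ 27) → (24 ≤ w.1 ∧ w.1 ≤ 27) →
    ∃ t ∈ faceL, v ∈ triSet t ∧ w ∈ triSet t := by
  decide +kernel

theorem inner_p0 (a : E3) (v : Fin 29) :
    inner ℝ a (p0 v) = a 0 * (P v 0 : ℝ) + a 1 * (P v 1 : ℝ) + a 2 * (P v 2 : ℝ) := by
  rw [PiLp.inner_apply, Fin.sum_univ_three]
  simp only [p0_apply, RCLike.inner_apply, conj_trivial]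
  ring

theorem saddle (a : E3) (ha : a ≠ 0) (v : Fin 29) (hv : v ∉ H0) :
    ∃ w, S0.Adj v w ∧ inner ℝ a (p0 w) < inner ℝ a (p0 v) := by
  obtain ⟨e, he, rfl⟩ := sad_cover v hv
  have hok := List.all_eq_true.1 sadL_ok e he
  unfold SEntry.ok at hok
  obtain ⟨h1, h2, h3, h4⟩ := of_decide_eq_true hok
  by_contra hcon
  push Not at hcon
  have hadj : ∀ k, S0.Adj e.v (e.w k) := by
    intro k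
    obtain ⟨t, ht, hv, hw⟩ := h1 k
    exact ⟨triSet t, mem_faceSet.2 ⟨t, ht, rfl⟩, hv, hw⟩
  have hge : ∀ k, 0 ≤ a 0 * (dZ (e.w k) e.v 0 : ℝ) + a 1 * (dZ (e.w k) e.v 1 : ℝ)
      + a 2 * (dZ (e.w k) e.v 2 : ℝ) := by
    intro k
    have := hcon (e.w k) (hadj k)
    rw [inner_p0, inner_p0] at this
    unfold dZ
    push_cast
    linarith
  have hl : ∀ k, (0 : ℝ) < (e.l k : ℝ) := fun k => by exact_mod_cast h2 k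
  have hs : ∀ i : Fin 3, (e.l 0 : ℝ) * (dZ (e.w 0) e.v i : ℝ) + e.l 1 * (dZ (e.w 1) e.v i : ℝ)
      + e.l 2 * (dZ (e.w 2) e.v i : ℝ) + e.l 3 * (dZ (e.w 3) e.v i : ℝ) = 0 := by
    intro i
    exact_mod_cast h3 i
  set D : Fin 4 → Fin 3 → ℝ := fun k i => (dZ (e.w k) e.v i : ℝ) with hD
  have hge' : ∀ k, 0 ≤ a 0 * D k 0 + a 1 * D k 1 + a 2 * D k 2 := hge
  have hs' : ∀ i, (e.l 0 : ℝ) * D 0 i + e.l 1 * D 1 i + e.l 2 * D 2 i + e.l 3 * D 3 i = 0 := hs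
  have hsum : (e.l 0 : ℝ) * (a 0 * D 0 0 + a 1 * D 0 1 + a 2 * D 0 2)
      + e.l 1 * (a 0 * D 1 0 + a 1 * D 1 1 + a 2 * D 1 2)
      + e.l 2 * (a 0 * D 2 0 + a 1 * D 2 1 + a 2 * D 2 2)
      + e.l 3 * (a 0 * D 3 0 + a 1 * D 3 1 + a 2 * D 3 2) = 0 := by
    linear_combination a 0 * hs' 0 + a 1 * hs' 1 + a 2 * hs' 2
  have n0 := mul_nonneg (hl 0).le (hge' 0)
  have n1 := mul_nonneg (hl 1).le (hge' 1)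
  have n2 := mul_nonneg (hl 2).le (hge' 2)
  have n3 := mul_nonneg (hl 3).le (hge' 3)
  have z0 : a 0 * D 0 0 + a 1 * D 0 1 + a 2 * D 0 2 = 0 := by
    have : (e.l 0 : ℝ) * (a 0 * D 0 0 + a 1 * D 0 1 + a 2 * D 0 2) = 0 := by linarith
    exact (mul_eq_zero.1 this).resolve_left (hl 0).ne'
  have z1 : a 0 * D 1 0 + a 1 * D 1 1 + a 2 * D 1 2 = 0 := by
    have : (e.l 1 : ℝ) * (a 0 * D 1 0 + a 1 * D 1 1 + a 2 * D 1 2) = 0 := by linarith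
    exact (mul_eq_zero.1 this).resolve_left (hl 1).ne'
  have z2 : a 0 * D 2 0 + a 1 * D 2 1 + a 2 * D 2 2 = 0 := by
    have : (e.l 2 : ℝ) * (a 0 * D 2 0 + a 1 * D 2 1 + a 2 * D 2 2) = 0 := by linarith
    exact (mul_eq_zero.1 this).resolve_left (hl 2).ne'
  have hdet : ((D 0 1 * D 1 2 - D 0 2 * D 1 1) * D 2 0 + (D 0 2 * D 1 0 - D 0 0 * D 1 2) * D 2 1
      + (D 0 0 * D 1 1 - D 0 1 * D 1 0) * D 2 2) ≠ 0 := by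
    unfold detZ at h4
    simp only [hD]
    exact_mod_cast h4
  set Δ := ((D 0 1 * D 1 2 - D 0 2 * D 1 1) * D 2 0 + (D 0 2 * D 1 0 - D 0 0 * D 1 2) * D 2 1
      + (D 0 0 * D 1 1 - D 0 1 * D 1 0) * D 2 2) with hΔ
  have a0 : Δ * a 0 = 0 := by
    rw [hΔ]
    linear_combination (D 1 1 * D 2 2 - D 1 2 * D 2 1) * z0 - (D 0 1 * D 2 2 - D 0 2 * D 2 1) * z1
      + (D 0 1 * D 1 2 - D 0 2 * D 1 1) * z2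
  have a1 : Δ * a 1 = 0 := by
    rw [hΔ]
    linear_combination -(D 1 0 * D 2 2 - D 1 2 * D 2 0) * z0 + (D 0 0 * D 2 2 - D 0 2 * D 2 0) * z1
      - (D 0 0 * D 1 2 - D 0 2 * D 1 0) * z2
  have a2 : Δ * a 2 = 0 := by
    rw [hΔ]
    linear_combination (D 1 0 * D 2 1 - D 1 1 * D 2 0) * z0 - (D 0 0 * D 2 1 - D 0 1 * D 2 0) * z1
      + (D 0 0 * D 1 1 - D 0 1 * D 1 0) * z2
  apply ha
  ext i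
  fin_cases i
  · exact (mul_eq_zero.1 a0).resolve_left hdet
  · exact (mul_eq_zero.1 a1).resolve_left hdet
  · exact (mul_eq_zero.1 a2).resolve_left hdet

/-- the surface is tight -/
theorem p0_tight : Tight S0 p0 := by
  refine Pool.Agent.helper43.TF.SG.tight_of (H := H0) S0 p0 ?_ (fun a ha v hv => saddle a ha v hv)
  intro v hv w hw
  obtain ⟨t, ht, h1, h2⟩ := hull_adj v w hv hw
  exact ⟨triSet t, mem_faceSet.2 ⟨t, ht, rfl⟩, h1, h2⟩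

/-! ### orientation -/

/-- the successor in an oriented triangle -/
def succT (t : Fin 29 × Fin 29 × Fin 29) (v : Fin 29) : Fin 29 :=
  if v = t.1 then t.2.1 else if v = t.2.1 then t.2.2 else t.1

/-- the cyclic successor in a face -/
def nextF (s : Finset (Fin 29)) (v : Fin 29) : Fin 29 :=
  match faceL.find? (fun t => decide (triSet t = s)) with
  | some t => succT t v
  | none => v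

theorem nextF_eq {t : Fin 29 × Fin 29 × Fin 29} (ht : t ∈ faceL) (v : Fin 29) :
    nextF (triSet t) v = succT t v := by
  unfold nextF
  cases h : faceL.find? (fun t' => decide (triSet t' = triSet t)) with
  | none =>
    have := List.find?_eq_none.1 h t ht
    simp at this
  | some t' =>
    have h1 : t' ∈ faceL := List.mem_of_find?_eq_some h
    have h2 : triSet t' = triSet t := by
      have := List.find?_some h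
      simpa using this
    have : t' = t := List.inj_on_of_nodup_map faceL_nodup h1 ht h2
    rw [this]

theorem succT_ok : ∀ t ∈ faceL, ∀ v ∈ triSet t, succT t v ∈ triSet t ∧ succT t v ≠ v ∧
    succT t (succT t (succT t v)) = v := by
  have h : (faceL.all fun t => decide (∀ v ∈ triSet t, succT t v ∈ triSet t ∧ succT t v ≠ v ∧
    succT t (succT t (succT t v)) = v)) = true := by decide +kernel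
  intro t ht
  exact of_decide_eq_true (List.all_eq_true.1 h t ht)

theorem succT_coh : ∀ t ∈ faceL, ∀ t' ∈ faceL, t ≠ t' → ∀ u ∈ triSet t, u ∈ triSet t' →
    succT t u ∈ triSet t' → succT t' (succT t u) = u := by
  have h : (faceL.all fun t => faceL.all fun t' => decide (t ≠ t' → ∀ u ∈ triSet t,
    u ∈ triSet t' → succT t u ∈ triSet t' → succT t' (succT t u) = u)) = true := by
    decide +kernel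
  intro t ht t' ht'
  exact of_decide_eq_true (List.all_eq_true.1 (List.all_eq_true.1 h t ht) t' ht')

theorem S0_orientable : S0.Orientable := by
  refine ⟨nextF, ?_, ?_⟩
  · intro s hs v hv
    obtain ⟨t, ht, rfl⟩ := mem_faceSet.1 hs
    obtain ⟨h1, h2, h3⟩ := succT_ok t ht v hv
    rw [nextF_eq ht, nextF_eq ht, nextF_eq ht]
    exact ⟨h1, h2, h3⟩
  · intro s hs s' hs' hne u hu hu' hn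
    obtain ⟨t, ht, rfl⟩ := mem_faceSet.1 hs
    obtain ⟨t', ht', rfl⟩ := mem_faceSet.1 hs'
    rw [nextF_eq ht] at hn
    rw [nextF_eq ht, nextF_eq ht']
    exact succT_coh t ht t' ht' (fun h => hne (by rw [h])) u hu hu' hn

end Pool.Agent.helper92.TF
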