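import Pool.Agent.helper45.TF.Defs

/-!
# Module IM of the project TF: immersions from separation certificates, and openness

`Sep p s t`: an affine functional which is constant on the common vertices of the two faces
`s`, `t`, larger on the other vertices of `s` and smaller on the other vertices of `t`.
If this holds for all pairs of faces with a common vertex, then `polyMap p` is a polyhedral
immersion.
-/

namespace Pool.Agent.helper92.TF.IM

open Set Topology Pool.Agent.helper45.TF

variable {V : Type} [Fintype V] [DecidableEq V]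

/-- the linear functional with coefficient vector `u` -/
noncomputable def fu (u : Fin 3 → ℝ) (y : E3) : ℝ := u 0 * y 0 + u 1 * y 1 + u 2 * y 2

/-- separation of two faces -/
def Sep (p : V → E3) (s t : Finset V) : Prop :=
  ∃ u : Fin 3 → ℝ, ∃ c : ℝ, (∀ w ∈ s, w ∈ t → fu u (p w) = c) ∧
    (∀ w ∈ s, w ∉ t → c < fu u (p w)) ∧ (∀ w ∈ t, w ∉ s → fu u (p w) < c)

theorem Sep.symm {p : V → E3} {s t : Finset V} (h : Sep p s t) : Sep p t s := by
  obtain ⟨u, c, h1, h2, h3⟩ := h
  refine ⟨fun i => - u i, -c, ?_, ?_, ?_⟩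
  · intro w hw hw'
    have := h1 w hw' hw
    simp only [fu] at this ⊢
    linarith
  · intro w hw hw'
    have := h3 w hw hw'
    simp only [fu] at this ⊢
    linarith
  · intro w hw hw'
    have := h2 w hw hw'
    simp only [fu] at this ⊢
    linarith

theorem fu_polyMap (u : Fin 3 → ℝ) (p : V → E3) (x : V → ℝ) :
    fu u (polyMap p x) = ∑ w, x w * fu u (p w) := by
  have h : ∀ i : Fin 3, (polyMap p x) i = ∑ w, x w * (p w) i := by
    intro i
    simp only [polyMap]
    rw [WithLp.ofLp_sum, Finset.sum_apply]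
    rfl
  simp only [fu, h]
  rw [Finset.mul_sum, Finset.mul_sum, Finset.mul_sum, ← Finset.sum_add_distrib,
    ← Finset.sum_add_distrib]
  refine Finset.sum_congr rfl (fun w _ => ?_)
  ring

theorem fu_polyMap_sub {u : Fin 3 → ℝ} {p : V → E3} {x : V → ℝ} (c : ℝ) (hx : ∑ v, x v = 1) :
    fu u (polyMap p x) - c = ∑ w, x w * (fu u (p w) - c) := by
  rw [fu_polyMap]
  simp only [mul_sub]
  rw [Finset.sum_sub_distrib, ← Finset.sum_mul, hx, one_mul]

/-- if two points of the separated faces `s`, `t` have the same image then the first one lies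
in the common face -/
theorem Sep.common {p : V → E3} {s t : Finset V} (h : Sep p s t) {x y : V → ℝ}
    (hx : x ∈ cell s) (hy : y ∈ cell t) (hxy : polyMap p x = polyMap p y) :
    x ∈ cell t := by
  obtain ⟨u, c, h1, h2, h3⟩ := h
  obtain ⟨hx0, hx1, hxs⟩ := hx
  obtain ⟨hy0, hy1, hyt⟩ := hy
  have e1 : ∑ w, x w * (fu u (p w) - c) = ∑ w, y w * (fu u (p w) - c) := by
    rw [← fu_polyMap_sub c hx1, ← fu_polyMap_sub c hy1, hxy]
  have p1 : ∀ w ∈ Finset.univ, 0 ≤ x w * (fu u (p w) - c) := by
    intro w _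
    by_cases hs : w ∈ s
    · by_cases ht : w ∈ t
      · rw [h1 w hs ht]; simp
      · exact mul_nonneg (hx0 w) (by linarith [h2 w hs ht])
    · rw [hxs w hs]; simp
  have p2 : ∑ w, y w * (fu u (p w) - c) ≤ 0 := by
    refine Finset.sum_nonpos (fun w _ => ?_)
    by_cases ht : w ∈ t
    · by_cases hs : w ∈ s
      · rw [h1 w hs ht]; simp
      · exact mul_nonpos_of_nonneg_of_nonpos (hy0 w) (by linarith [h3 w ht hs])
    · rw [hyt w ht]; simp
  have z : ∑ w, x w * (fu u (p w) - c) = 0 :=
    le_antisymm (e1.trans_le p2) (Finset.sum_nonneg p1)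
  refine ⟨hx0, hx1, fun w hw => ?_⟩
  by_cases hs : w ∈ s
  · have hz := (Finset.sum_eq_zero_iff_of_nonneg p1).1 z w (Finset.mem_univ w)
    rcases mul_eq_zero.1 hz with h | h
    · exact h
    · exfalso
      have := h2 w hs hw
      linarith
  · exact hxs w hs

/-- a face is mapped injectively if each of its vertices is separated from the opposite edge by
an affine functional which is constant on this edge -/
theorem injOn_cell {p : V → E3} {s : Finset V}
    (h : ∀ w ∈ s, ∃ u : Fin 3 → ℝ, ∃ c : ℝ, (∀ w' ∈ s, w' ≠ w → fu u (p w') = c) ∧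
      fu u (p w) ≠ c) : InjOn (polyMap p) (cell s) := by
  intro x hx y hy hxy
  obtain ⟨hx0, hx1, hxs⟩ := hx
  obtain ⟨hy0, hy1, hys⟩ := hy
  funext w
  by_cases hw : w ∈ s
  · obtain ⟨u, c, h1, h2⟩ := h w hw
    have key : ∀ z : V → ℝ, (∀ v, v ∉ s → z v = 0) →
        ∑ v, z v * (fu u (p v) - c) = z w * (fu u (p w) - c) := by
      intro z hz
      refine Finset.sum_eq_single w (fun v _ hv => ?_) (fun h => absurd (Finset.mem_univ w) h)
      by_cases hvs : v ∈ s
      · rw [h1 v hvs hv]; simp
      · rw [hz v hvs]; simp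
    have e1 := fu_polyMap_sub (u := u) (p := p) c hx1
    have e2 := fu_polyMap_sub (u := u) (p := p) c hy1
    rw [key x hxs] at e1
    rw [key y hys] at e2
    rw [hxy, e2] at e1
    exact (mul_right_cancel₀ (sub_ne_zero.2 h2) e1).symm
  · rw [hxs w hw, hys w hw]

theorem other_face (S : ClosedSurface V) {s : Finset V} (hs : s ∈ S.faces) {w : V} (hw : w ∈ s) :
    ∃ t ∈ S.faces, t ≠ s ∧ w ∉ t ∧ ∀ w' ∈ s, w' ≠ w → w' ∈ t := by
  have hc := S.card_eq s hs
  have hc2 : (s.erase w).card = 2 := by rw [Finset.card_erase_of_mem hw, hc]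
  obtain ⟨a, b, hab, he⟩ := Finset.card_eq_two.1 hc2
  have ha : a ∈ s := Finset.mem_of_mem_erase (by rw [he]; simp : a ∈ s.erase w)
  have hb : b ∈ s := Finset.mem_of_mem_erase (by rw [he]; simp : b ∈ s.erase w)
  have hwa : w ≠ a := fun h => by
    have : a ∈ s.erase w := by rw [he]; simp
    exact (Finset.mem_erase.1 this).1 h.symm
  have hwb : w ≠ b := fun h => by
    have : b ∈ s.erase w := by rw [he]; simp
    exact (Finset.mem_erase.1 this).1 h.symm
  have h2 := S.edge_two a b hab ⟨s, hs, ha, hb⟩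
  have hmem : s ∈ S.faces.filter (fun s => a ∈ s ∧ b ∈ s) := by
    rw [Finset.mem_filter]; exact ⟨hs, ha, hb⟩
  obtain ⟨t, ht, hts⟩ := Finset.exists_mem_ne (by rw [h2]; norm_num) s
  rw [Finset.mem_filter] at ht
  obtain ⟨ht, hat, hbt⟩ := ht
  refine ⟨t, ht, hts, ?_, ?_⟩
  · intro hwt
    apply hts
    have hs3 : s = {w, a, b} := by
      rw [← he, Finset.insert_erase hw]
    have hsub : s ⊆ t := by
      rw [hs3]
      intro z hz
      simp only [Finset.mem_insert, Finset.mem_singleton] at hz
      rcases hz with rfl | rfl | rfl <;> assumption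
    exact (Finset.eq_of_subset_of_card_le hsub (by rw [hc, S.card_eq t ht])).symm
  · intro w' hw' hne
    have : w' ∈ s.erase w := Finset.mem_erase.2 ⟨hne, hw'⟩
    rw [he] at this
    simp only [Finset.mem_insert, Finset.mem_singleton] at this
    rcases this with rfl | rfl <;> assumption

/-- `polyMap p` is a polyhedral immersion if any two different faces with a common vertex are
separated -/
theorem immersion_of_sep (S : ClosedSurface V) (p : V → E3)
    (h : ∀ s ∈ S.faces, ∀ t ∈ S.faces, s ≠ t → (∃ v ∈ s, v ∈ t) → Sep p s t) :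
    IsPolyhedralImmersion S p := by
  have hinj : ∀ s ∈ S.faces, InjOn (polyMap p) (cell s) := by
    intro s hs
    refine injOn_cell (fun w hw => ?_)
    obtain ⟨t, ht, hts, hwt, hall⟩ := other_face S hs hw
    have hc2 : (s.erase w).card = 2 := by rw [Finset.card_erase_of_mem hw, S.card_eq s hs]
    obtain ⟨a, ha⟩ : (s.erase w).Nonempty := by
      rw [← Finset.card_pos, hc2]; norm_num
    rw [Finset.mem_erase] at ha
    obtain ⟨u, c, h1, h2, h3⟩ := h s hs t ht hts.symm ⟨a, ha.2, hall a ha.2 ha.1⟩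
    exact ⟨u, c, fun w' hw' hne => h1 w' hw' (hall w' hw' hne), (h2 w hw hwt).ne'⟩
  refine ⟨hinj, fun x hx => ?_⟩
  obtain ⟨s0, hs0, hx0, hx1, hxs⟩ := hx
  obtain ⟨v, hv⟩ : ∃ v, 0 < x v := by
    by_contra hcon
    push Not at hcon
    have : ∑ v, x v ≤ 0 := Finset.sum_nonpos (fun v _ => hcon v)
    linarith
  refine ⟨{y | 0 < y v}, ?_, ?_⟩
  · exact (isOpen_lt continuous_const (continuous_apply v)).mem_nhds hv
  · intro y hy z hz hyz
    obtain ⟨hyv, s, hs, hys⟩ := hy
    obtain ⟨hzv, t, ht, hzt⟩ := hz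
    have hvs : v ∈ s := by
      by_contra hcon
      have := hys.2.2 v hcon
      have h0 : 0 < y v := hyv
      linarith
    have hvt : v ∈ t := by
      by_contra hcon
      have := hzt.2.2 v hcon
      have h0 : 0 < z v := hzv
      linarith
    by_cases hst : s = t
    · subst hst
      exact hinj s hs hys hzt hyz
    · have := (h s hs t ht hst ⟨v, hvs, hvt⟩).common hys hzt hyz
      exact hinj t ht this hzt hyz

/-! ### openness -/

/-- the determinant of three vectors -/
def det3 (A n B : Fin 3 → ℝ) : ℝ :=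
  (A 1 * n 2 - A 2 * n 1) * B 0 + (A 2 * n 0 - A 0 * n 2) * B 1 + (A 0 * n 1 - A 1 * n 0) * B 2

/-- difference vector -/
def dv (p : V → E3) (w v : V) : Fin 3 → ℝ := fun i => p w i - p v i

/-- certificate for two faces with exactly one common vertex -/
def Cert1 (p : V → E3) (s t : Finset V) : Prop :=
  ∃ v, (∀ w ∈ s, w ∈ t → w = v) ∧ ∃ n : Fin 3 → ℝ,
    (∀ w ∈ s, w ∉ t → 0 < n 0 * dv p w v 0 + n 1 * dv p w v 1 + n 2 * dv p w v 2) ∧
    (∀ w ∈ t, w ∉ s → n 0 * dv p w v 0 + n 1 * dv p w v 1 + n 2 * dv p w v 2 < 0)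

/-- certificate for two faces with a common edge -/
def Cert2 (p : V → E3) (s t : Finset V) : Prop :=
  ∃ v a, (∀ w ∈ s, w ∈ t → w = v ∨ w = a) ∧ ∃ n : Fin 3 → ℝ,
    (∀ w ∈ s, w ∉ t → 0 < det3 (dv p a v) n (dv p w v)) ∧
    (∀ w ∈ t, w ∉ s → det3 (dv p a v) n (dv p w v) < 0)

theorem Cert1.sep {p : V → E3} {s t : Finset V} (h : Cert1 p s t) : Sep p s t := by
  obtain ⟨v, h1, n, h2, h3⟩ := h
  refine ⟨n, fu n (p v), ?_, ?_, ?_⟩
  · intro w hw hw'
    rw [h1 w hw hw']
  · intro w hw hw'
    have := h2 w hw hw'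
    simp only [fu, dv] at this ⊢
    linarith
  · intro w hw hw'
    have := h3 w hw hw'
    simp only [fu, dv] at this ⊢
    linarith

theorem Cert2.sep {p : V → E3} {s t : Finset V} (h : Cert2 p s t) : Sep p s t := by
  obtain ⟨v, a, h1, n, h2, h3⟩ := h
  refine ⟨![dv p a v 1 * n 2 - dv p a v 2 * n 1, dv p a v 2 * n 0 - dv p a v 0 * n 2,
    dv p a v 0 * n 1 - dv p a v 1 * n 0],
    (dv p a v 1 * n 2 - dv p a v 2 * n 1) * p v 0 + (dv p a v 2 * n 0 - dv p a v 0 * n 2) * p v 1
      + (dv p a v 0 * n 1 - dv p a v 1 * n 0) * p v 2, ?_, ?_, ?_⟩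
  · intro w hw hw'
    rcases h1 w hw hw' with rfl | rfl
    · simp [fu]
    · simp only [fu, dv, Matrix.cons_val_zero, Matrix.cons_val_one, Matrix.cons_val]
      ring
  · intro w hw hw'
    have := h2 w hw hw'
    simp only [det3] at this
    have e : dv p w v 0 = p w 0 - p v 0 := rfl
    have e1 : dv p w v 1 = p w 1 - p v 1 := rfl
    have e2 : dv p w v 2 = p w 2 - p v 2 := rfl
    rw [e, e1, e2] at this
    simp only [fu, Matrix.cons_val_zero, Matrix.cons_val_one, Matrix.cons_val]
    nlinarith [this]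
  · intro w hw hw'
    have := h3 w hw hw'
    simp only [det3] at this
    have e : dv p w v 0 = p w 0 - p v 0 := rfl
    have e1 : dv p w v 1 = p w 1 - p v 1 := rfl
    have e2 : dv p w v 2 = p w 2 - p v 2 := rfl
    rw [e, e1, e2] at this
    simp only [fu, Matrix.cons_val_zero, Matrix.cons_val_one, Matrix.cons_val]
    nlinarith [this]

theorem continuous_dv (w v : V) (i : Fin 3) : Continuous (fun p : V → E3 => dv p w v i) := by
  unfold dv
  fun_prop

theorem Cert1.eventually {p : V → E3} {s t : Finset V} (h : Cert1 p s t) :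
    ∀ᶠ q in 𝓝 p, Cert1 q s t := by
  obtain ⟨v, h1, n, h2, h3⟩ := h
  have hc : ∀ w, Continuous (fun q : V → E3 =>
      n 0 * dv q w v 0 + n 1 * dv q w v 1 + n 2 * dv q w v 2) := by
    intro w
    have := continuous_dv w v 0
    have := continuous_dv w v 1
    have := continuous_dv w v 2
    fun_prop
  have e2 : ∀ᶠ q in 𝓝 p, ∀ w, w ∈ s → w ∉ t →
      0 < n 0 * dv q w v 0 + n 1 * dv q w v 1 + n 2 * dv q w v 2 := by
    rw [Filter.eventually_all]
    intro w
    by_cases hw : w ∈ s
    · by_cases hw' : w ∈ t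
      · exact Filter.Eventually.of_forall (fun q _ h => absurd hw' h)
      · have := (hc w).continuousAt.eventually_mem (isOpen_Ioi.mem_nhds (h2 w hw hw'))
        filter_upwards [this] with q hq _ _ using hq
    · exact Filter.Eventually.of_forall (fun q h => absurd h hw)
  have e3 : ∀ᶠ q in 𝓝 p, ∀ w, w ∈ t → w ∉ s →
      n 0 * dv q w v 0 + n 1 * dv q w v 1 + n 2 * dv q w v 2 < 0 := by
    rw [Filter.eventually_all]
    intro w
    by_cases hw : w ∈ t
    · by_cases hw' : w ∈ s
      · exact Filter.Eventually.of_forall (fun q _ h => absurd hw' h)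
      · have := (hc w).continuousAt.eventually_mem (isOpen_Iio.mem_nhds (h3 w hw hw'))
        filter_upwards [this] with q hq _ _ using hq
    · exact Filter.Eventually.of_forall (fun q h => absurd h hw)
  filter_upwards [e2, e3] with q h2 h3
  exact ⟨v, h1, n, h2, h3⟩

theorem Cert2.eventually {p : V → E3} {s t : Finset V} (h : Cert2 p s t) :
    ∀ᶠ q in 𝓝 p, Cert2 q s t := by
  obtain ⟨v, a, h1, n, h2, h3⟩ := h
  have hc : ∀ w, Continuous (fun q : V → E3 => det3 (dv q a v) n (dv q w v)) := by
    intro w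
    have := continuous_dv w v 0
    have := continuous_dv w v 1
    have := continuous_dv w v 2
    have := continuous_dv a v 0
    have := continuous_dv a v 1
    have := continuous_dv a v 2
    unfold det3
    fun_prop
  have e2 : ∀ᶠ q in 𝓝 p, ∀ w, w ∈ s → w ∉ t → 0 < det3 (dv q a v) n (dv q w v) := by
    rw [Filter.eventually_all]
    intro w
    by_cases hw : w ∈ s
    · by_cases hw' : w ∈ t
      · exact Filter.Eventually.of_forall (fun q _ h => absurd hw' h)
      · have := (hc w).continuousAt.eventually_mem (isOpen_Ioi.mem_nhds (h2 w hw hw'))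
        filter_upwards [this] with q hq _ _ using hq
    · exact Filter.Eventually.of_forall (fun q h => absurd h hw)
  have e3 : ∀ᶠ q in 𝓝 p, ∀ w, w ∈ t → w ∉ s → det3 (dv q a v) n (dv q w v) < 0 := by
    rw [Filter.eventually_all]
    intro w
    by_cases hw : w ∈ t
    · by_cases hw' : w ∈ s
      · exact Filter.Eventually.of_forall (fun q _ h => absurd hw' h)
      · have := (hc w).continuousAt.eventually_mem (isOpen_Iio.mem_nhds (h3 w hw hw'))
        filter_upwards [this] with q hq _ _ using hq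
    · exact Filter.Eventually.of_forall (fun q h => absurd h hw)
  filter_upwards [e2, e3] with q h2 h3
  exact ⟨v, a, h1, n, h2, h3⟩

/-- Openness of the immersion condition, from certificates for the pairs of faces. -/
theorem im_open (S : ClosedSurface V) (p : V → E3)
    (h : ∀ s ∈ S.faces, ∀ t ∈ S.faces, s ≠ t → (∃ v ∈ s, v ∈ t) →
      Cert1 p s t ∨ Cert2 p s t ∨ Cert1 p t s ∨ Cert2 p t s) :
    ∀ᶠ q in 𝓝 p, IsPolyhedralImmersion S q := by
  have e : ∀ᶠ q in 𝓝 p, ∀ s ∈ S.faces, ∀ t ∈ S.faces, s ≠ t → (∃ v ∈ s, v ∈ t) → Sep q s t := by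
    rw [Filter.eventually_all_finset]
    intro s hs
    rw [Filter.eventually_all_finset]
    intro t ht
    by_cases hst : s = t
    · exact Filter.Eventually.of_forall (fun q h => absurd hst h)
    by_cases hv : ∃ v ∈ s, v ∈ t
    · rcases h s hs t ht hst hv with h | h | h | h
      · filter_upwards [h.eventually] with q hq _ _ using hq.sep
      · filter_upwards [h.eventually] with q hq _ _ using hq.sep
      · filter_upwards [h.eventually] with q hq _ _ using hq.sep.symm
      · filter_upwards [h.eventually] with q hq _ _ using hq.sep.symm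
    · exact Filter.Eventually.of_forall (fun q _ h => absurd h hv)
  filter_upwards [e] with q hq
  exact immersion_of_sep S q hq

end Pool.Agent.helper92.TF.IM
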