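import Pool.Agent.helper45.TF.Defs2
import Pool.Agent.helper92.TF.Cert

/-!
# Module NR of the project TF: the surface is not rigid, given a small flex
-/

namespace Pool.Agent.helper92.TF

open Set Topology Pool.Agent.helper45.TF

theorem NR_orth {a b c d u : E3} (hdet : Pool.Agent.helper45.TF.det3 (b - a) (c - a) (d - a) ≠ 0)
    (h1 : inner ℝ u (b - a) = 0) (h2 : inner ℝ u (c - a) = 0) (h3 : inner ℝ u (d - a) = 0) :
    u = 0 := by
  rw [PiLp.inner_apply, Fin.sum_univ_three] at h1 h2 h3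
  simp only [RCLike.inner_apply, conj_trivial] at h1 h2 h3
  unfold Pool.Agent.helper45.TF.det3 at hdet
  set B := b - a with hB
  set C := c - a with hC
  set D := d - a with hD
  set Δ := B 0 * (C 1 * D 2 - C 2 * D 1) - B 1 * (C 0 * D 2 - C 2 * D 0)
    + B 2 * (C 0 * D 1 - C 1 * D 0) with hΔ
  have e0 : Δ * u 0 = 0 := by
    rw [hΔ]
    linear_combination (C 1 * D 2 - C 2 * D 1) * h1 - (B 1 * D 2 - B 2 * D 1) * h2
      + (B 1 * C 2 - B 2 * C 1) * h3
  have e1 : Δ * u 1 = 0 := by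
    rw [hΔ]
    linear_combination -(C 0 * D 2 - C 2 * D 0) * h1 + (B 0 * D 2 - B 2 * D 0) * h2
      - (B 0 * C 2 - B 2 * C 0) * h3
  have e2 : Δ * u 2 = 0 := by
    rw [hΔ]
    linear_combination (C 0 * D 1 - C 1 * D 0) * h1 - (B 0 * D 1 - B 1 * D 0) * h2
      + (B 0 * C 1 - B 1 * C 0) * h3
  ext i
  fin_cases i
  · exact (mul_eq_zero.1 e0).resolve_left hdet
  · exact (mul_eq_zero.1 e1).resolve_left hdet
  · exact (mul_eq_zero.1 e2).resolve_left hdet

theorem NR_dist {a b x y : E3} (h1 : dist y a = dist x a) (h2 : dist y b = dist x b) :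
    inner ℝ (y - x) (b - a) = 0 := by
  rw [dist_eq_norm, dist_eq_norm] at h1 h2
  have e1 : ‖y - a‖ ^ 2 = ‖x - a‖ ^ 2 := by rw [h1]
  have e2 : ‖y - b‖ ^ 2 = ‖x - b‖ ^ 2 := by rw [h2]
  rw [← real_inner_self_eq_norm_sq, ← real_inner_self_eq_norm_sq] at e1 e2
  simp only [inner_sub_left, inner_sub_right] at e1 e2 ⊢
  have c1 := real_inner_comm y a
  have c2 := real_inner_comm y b
  have c3 := real_inner_comm x a
  have c4 := real_inner_comm x b
  linarith

/-- a Euclidean motion fixing four affinely independent points is the identity -/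
theorem NR_fix (g : E3 ≃ᵃⁱ[ℝ] E3) (a b c d : E3)
    (hdet : Pool.Agent.helper45.TF.det3 (b - a) (c - a) (d - a) ≠ 0)
    (ha : g a = a) (hb : g b = b) (hc : g c = c) (hd : g d = d) (x : E3) : g x = x := by
  have k : ∀ z, g z = z → dist (g x) z = dist x z := by
    intro z hz
    conv_lhs => rw [← hz]
    exact g.dist_map x z
  have := NR_orth hdet (NR_dist (k a ha) (k b hb)) (NR_dist (k a ha) (k c hc))
    (NR_dist (k a ha) (k d hd))
  exact sub_eq_zero.1 this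

theorem det_fixed : detZ (dZ 1 0) (dZ 2 0) (dZ 24 0) ≠ 0 := by
  decide +kernel

theorem NR_det : Pool.Agent.helper45.TF.det3 (p0 1 - p0 0) (p0 2 - p0 0) (p0 24 - p0 0) ≠ 0 := by
  have h := det_fixed
  unfold detZ at h
  have h' : (((dZ 1 0 1 * dZ 2 0 2 - dZ 1 0 2 * dZ 2 0 1) * dZ 24 0 0
      + (dZ 1 0 2 * dZ 2 0 0 - dZ 1 0 0 * dZ 2 0 2) * dZ 24 0 1
      + (dZ 1 0 0 * dZ 2 0 1 - dZ 1 0 1 * dZ 2 0 0) * dZ 24 0 2 : ℤ) : ℝ) ≠ 0 := by
    exact_mod_cast h
  intro h0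
  apply h'
  rw [← h0]
  unfold Pool.Agent.helper45.TF.det3
  have e : ∀ w i, (p0 w - p0 0) i = (dZ w 0 i : ℝ) := by
    intro w i
    simp [dZ]
  rw [e, e, e, e, e, e, e, e, e]
  push_cast
  ring

/-- the fixed vertices: only three of them and one more are used -/
def fixedV : Finset (Fin 29) := {0, 1, 2, 21, 22, 23, 24, 25, 26, 27, 28}

/-- The surface is not rigid, if there are arbitrarily small flexes. -/
theorem not_rigid_of (hcong : CONG_stmt)
    (hcurve : ∀ U ∈ 𝓝 p0, ∃ q : unitInterval → Fin 29 → E3, Continuous q ∧ q 0 = p0 ∧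
      (∀ t, q t ∈ U) ∧
      (∀ t, ∀ s ∈ faceSet, ∀ u ∈ s, ∀ v ∈ s, dist (q t u) (q t v) = dist (p0 u) (p0 v)) ∧
      (∀ t, ∀ v ∈ fixedV, q t v = p0 v) ∧ q 1 ≠ p0) :
    ¬ Rigid S0 p0 := by
  intro hr
  obtain ⟨q, hqc, hq0, hqU, hlen, hfix, hne⟩ := hcurve _ p0_open
  have hiso : ∀ t, ∀ s ∈ S0.faces, ∃ g : E3 ≃ᵃⁱ[ℝ] E3, ∀ v ∈ s, g (p0 v) = q t v := by
    intro t s hs
    obtain ⟨⟨a, b, c⟩, ht, rfl⟩ := mem_faceSet.1 hs
    have ha : a ∈ triSet (a, b, c) := by simp [triSet]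
    have hb : b ∈ triSet (a, b, c) := by simp [triSet]
    have hc : c ∈ triSet (a, b, c) := by simp [triSet]
    obtain ⟨g, g1, g2, g3⟩ := hcong (p0 a) (p0 b) (p0 c) (q t a) (q t b) (q t c)
      (hlen t _ hs a ha b hb).symm (hlen t _ hs a ha c hc).symm (hlen t _ hs b hb c hc).symm
    refine ⟨g, fun v hv => ?_⟩
    simp only [triSet, Finset.mem_insert, Finset.mem_singleton] at hv
    rcases hv with rfl | rfl | rfl <;> assumption
  obtain ⟨g, hg⟩ := hr q hqc hq0 hqU hiso 1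
  apply hne
  have hf : ∀ v ∈ fixedV, g (p0 v) = p0 v := fun v hv => by rw [hg v, hfix 1 v hv]
  have hid := NR_fix g (p0 0) (p0 1) (p0 2) (p0 24) NR_det (hf 0 (by decide)) (hf 1 (by decide))
    (hf 2 (by decide)) (hf 24 (by decide))
  funext v
  rw [← hg v, hid]

end Pool.Agent.helper92.TF
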